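import Mathlib
import Pool.Agent.Helper65.Inj.JDefs

namespace Pool.Agent.Helper64.Inj

open Classical
open Pool.Agent.Helper65.Inj
open Pool.Agent.Helper65.Inj.Cub

set_option linter.unusedSectionVars false
set_option linter.unusedVariables false

variable {A B : Type} [Fintype A] [Fintype B]

/-- the local structure of a token of K4 type with a long pair -/
structure KS (H : Cub A B) (J : Finset A) (T : B) (x y z o a b : A) (g be ga de : B) : Prop where
  hy : XD H J y T g be a b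
  hz : XD H J z T g ga a b
  hl : H.LP a b
  hx : x ∈ H.pt T
  xy : x ≠ y
  xz : x ≠ z
  yz : y ≠ z
  oJ : o ∉ J
  oT : o ∉ H.pt T
  obe : o ∈ H.pt be
  oga : o ∈ H.pt ga
  ode : o ∈ H.pt de
  xde : x ∈ H.pt de
  bega : be ≠ ga
  debe : de ≠ be
  dega : de ≠ ga
  hde : ¬ H.U J de

theorem ks (hE : ST_End) {H : Cub A B} {J : Finset A} {T : B} {x y z o : A} (hO : H.Opt J)
    (hK : H.K4d J T x y z o) (hLg : H.Lg J y) :
    ∃ a b g be ga de, KS H J T x y z o a b g be ga de := by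
  obtain ⟨⟨hU, hxT, hyT, hzT, hxy, hxz, hyz, hoJ, hoT, ⟨g, hgT, hyg, hzg⟩, ⟨be, hybe, hobe⟩,
    ⟨ga, hzga, hoga⟩⟩, ⟨de, hxde, hode⟩⟩ := hK
  obtain ⟨T', b', c', j, k, hX, hL⟩ := hLg
  have hT' : T' = T := F1 hO hX.vT hyT hX.hT hU
  subst hT'
  have hyJ : y ∉ J := hU y hyT
  have hzJ : z ∉ J := hU z hzT
  have hxJ : x ∉ J := hU x hxT
  have hoy : o ≠ y := fun h => hoT (h ▸ hyT)
  have hoz : o ≠ z := fun h => hoT (h ▸ hzT)
  have hox : o ≠ x := fun h => hoT (h ▸ hxT)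
  have hbeT : be ≠ T' := fun h => hoT (h ▸ hobe)
  have hbeg : be ≠ g := by
    rintro rfl
    have hUg : H.U J be := by
      intro u hu huJ
      rcases pt_cases hyg hzg hobe hyz hoy.symm hoz.symm hu with rfl | rfl | rfl
      · exact hyJ huJ
      · exact hzJ huJ
      · exact hoJ huJ
    exact hgT (F1 hO hyg hyT hUg hU)
  have key : ∀ j k, XD H J y T' g be j k → H.LP j k →
      ∃ a b g be ga de, KS H J T' x y z o a b g be ga de := by
    intro j k hX hL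
    have hgaT : ga ≠ T' := fun h => hoT (h ▸ hoga)
    have hjJ := hX.hj.2.1
    have hkJ := hX.hk.2.1
    have hgag : ga ≠ g := by
      rintro rfl
      rcases pt_cases hyg hzg hoga hyz hoy.symm hoz.symm hX.hj.1 with h | h | h
      · exact hyJ (h ▸ hjJ)
      · exact hzJ (h ▸ hjJ)
      · exact hoJ (h ▸ hjJ)
    obtain ⟨w, hzw, how, hw, hwall⟩ := ex_pt2 hzga hoga hoz.symm
    have hwJ : w ∈ J := by
      by_contra hwJ
      have hUga : H.U J ga := by
        intro u hu huJ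
        rcases hwall u hu with rfl | rfl | rfl
        · exact hzJ huJ
        · exact hoJ huJ
        · exact hwJ huJ
      exact hgaT (F1 hO hzga hzT hUga hU)
    have hPga : H.P J ga w := by
      refine ⟨hw, hwJ, fun u hu huJ => ?_⟩
      rcases hwall u hu with rfl | rfl | rfl
      · exact absurd huJ hzJ
      · exact absurd huJ hoJ
      · rfl
    have hZ : XD H J z T' g ga j w := ⟨hzT, hzg, hzga, hgag.symm, hU, hX.hj, hPga⟩
    have hkw : k = w := hE A B H J y z j k w T' g be T' g ga hO hX hZ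
    subst hkw
    have hxbe : x ∉ H.pt be := by
      intro h
      rcases pt_cases hybe hobe hX.hk.1 hoy.symm (fun h => hyJ (h ▸ hkJ)) (fun h => hoJ (h ▸ hkJ)) h
        with h | h | h
      · exact hxy h
      · exact hox h.symm
      · exact hxJ (h ▸ hkJ)
    have hxga : x ∉ H.pt ga := by
      intro h
      rcases hwall x h with h | h | h
      · exact hxz h
      · exact hox h.symm
      · exact hxJ (h ▸ hkJ)
    refine ⟨j, k, g, be, ga, de, hX, hZ, hL, hxT, hxy, hxz, hyz, hoJ, hoT, hobe, hoga, hode, hxde,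
      ?_, ?_, ?_, ?_⟩
    · rintro rfl
      rcases hwall y hybe with h | h | h
      · exact hyz h
      · exact hoy h.symm
      · exact hyJ (h ▸ hkJ)
    · rintro rfl; exact hxbe hxde
    · rintro rfl; exact hxga hxde
    · intro hUde
      have : de = T' := F1 hO hxde hxT hUde hU
      exact hoT (this ▸ hode)
  rcases hX.all hyg with h | h | h
  · exact absurd h hgT
  · subst h
    rcases hX.all hybe with h | h | h
    · exact absurd h hbeT
    · exact absurd h hbeg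
    · subst h; exact key j k hX hL
  · subst h
    rcases hX.all hybe with h | h | h
    · exact absurd h hbeT
    · subst h; exact key k j hX.symm (fun D h => hL D ⟨h.2, h.1⟩)
    · exact absurd h hbeg

/-- context: the token and its rotation -/
structure NC (H : Cub A B) (J : Finset A) (T : B) (x y z o a b p : A) (g be ga de D : B) : Prop where
  hO : H.Opt J
  hO' : H.Opt ((J \ {b}) ∪ {y})
  hS : KS H J T x y z o a b g be ga de
  hlf : Lf H J b be D ga p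
  hX' : XD H ((J \ {b}) ∪ {y}) b ga be D y p

namespace NC

variable {H : Cub A B} {J : Finset A} {T : B} {x y z o a b p : A} {g be ga de D : B}

theorem yJ (h : NC H J T x y z o a b p g be ga de D) : y ∉ J := h.hS.hy.nJ
theorem zJ (h : NC H J T x y z o a b p g be ga de D) : z ∉ J := h.hS.hz.nJ
theorem xJ (h : NC H J T x y z o a b p g be ga de D) : x ∉ J := h.hS.hy.hT x h.hS.hx
theorem oJ (h : NC H J T x y z o a b p g be ga de D) : o ∉ J := h.hS.oJ
theorem bJ (h : NC H J T x y z o a b p g be ga de D) : b ∈ J := h.hlf.hb.2.1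
theorem aJ (h : NC H J T x y z o a b p g be ga de D) : a ∈ J := h.hS.hy.hj.2.1
theorem pJ (h : NC H J T x y z o a b p g be ga de D) : p ∈ J := h.hlf.hD.2.2.2.2.1
theorem bp (h : NC H J T x y z o a b p g be ga de D) : b ≠ p := h.hlf.hD.1
theorem ab (h : NC H J T x y z o a b p g be ga de D) : a ≠ b := h.hS.hy.ne h.hO
theorem oy (h : NC H J T x y z o a b p g be ga de D) : o ≠ y := fun e => h.hS.oT (e ▸ h.hS.hy.vT)
theorem oz (h : NC H J T x y z o a b p g be ga de D) : o ≠ z := fun e => h.hS.oT (e ▸ h.hS.hz.vT)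
theorem ox (h : NC H J T x y z o a b p g be ga de D) : o ≠ x := fun e => h.hS.oT (e ▸ h.hS.hx)
theorem ob (h : NC H J T x y z o a b p g be ga de D) : o ≠ b := fun e => h.oJ (e ▸ h.bJ)
theorem yb (h : NC H J T x y z o a b p g be ga de D) : y ≠ b := fun e => h.yJ (e ▸ h.bJ)
theorem zb (h : NC H J T x y z o a b p g be ga de D) : z ≠ b := fun e => h.zJ (e ▸ h.bJ)
theorem xb (h : NC H J T x y z o a b p g be ga de D) : x ≠ b := fun e => h.xJ (e ▸ h.bJ)
theorem ya (h : NC H J T x y z o a b p g be ga de D) : y ≠ a := fun e => h.yJ (e ▸ h.aJ)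
theorem xp (h : NC H J T x y z o a b p g be ga de D) : x ≠ p := fun e => h.xJ (e ▸ h.pJ)
theorem op (h : NC H J T x y z o a b p g be ga de D) : o ≠ p := fun e => h.oJ (e ▸ h.pJ)
theorem gaall (h : NC H J T x y z o a b p g be ga de D) :
    ∀ r ∈ H.pt ga, r = z ∨ r = o ∨ r = b := fun r hr =>
  pt_cases h.hS.hz.vc h.hS.oga h.hS.hz.hk.1 h.oz.symm h.zb h.ob hr
theorem beall (h : NC H J T x y z o a b p g be ga de D) :
    ∀ r ∈ H.pt be, r = y ∨ r = o ∨ r = b := fun r hr =>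
  pt_cases h.hS.hy.vc h.hS.obe h.hS.hy.hk.1 h.oy.symm h.yb h.ob hr
theorem Tall (h : NC H J T x y z o a b p g be ga de D) :
    ∀ r ∈ H.pt T, r = x ∨ r = y ∨ r = z := fun r hr =>
  pt_cases h.hS.hx h.hS.hy.vT h.hS.hz.vT h.hS.xy h.hS.xz h.hS.yz hr
theorem mJ' (u : A) : u ∈ (J \ {b}) ∪ {y} ↔ (u ∈ J ∧ u ≠ b) ∨ u = y := by
  simp only [Finset.mem_union, Finset.mem_sdiff, Finset.mem_singleton]
theorem yJ' (h : NC H J T x y z o a b p g be ga de D) : y ∈ (J \ {b}) ∪ {y} :=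
  (mJ' y).2 (Or.inr rfl)
theorem bJ' (h : NC H J T x y z o a b p g be ga de D) : b ∉ (J \ {b}) ∪ {y} := by
  rw [mJ']; have := h.yb; tauto
theorem oJ' (h : NC H J T x y z o a b p g be ga de D) : o ∉ (J \ {b}) ∪ {y} := by
  rw [mJ']; have := h.oy; have := h.oJ; tauto
theorem xJ' (h : NC H J T x y z o a b p g be ga de D) : x ∉ (J \ {b}) ∪ {y} := by
  rw [mJ']; have := h.hS.xy; have := h.xJ; tauto
theorem aJ' (h : NC H J T x y z o a b p g be ga de D) : a ∈ (J \ {b}) ∪ {y} :=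
  (mJ' a).2 (Or.inl ⟨h.aJ, h.ab⟩)

theorem gP (h : NC H J T x y z o a b p g be ga de D) : ∀ r, ¬ H.P ((J \ {b}) ∪ {y}) g r := by
  intro r e
  have h1 := e.2.2 y h.hS.hy.vb h.yJ'
  have h2 := e.2.2 a h.hS.hy.hj.1 h.aJ'
  exact h.ya (h1.trans h2.symm)

theorem znX (h : NC H J T x y z o a b p g be ga de D) :
    ∀ T1 b1 c1 j1 k1, ¬ XD H ((J \ {b}) ∪ {y}) z T1 b1 c1 j1 k1 := by
  intro T1 b1 c1 j1 k1 e
  rcases e.all h.hS.hz.vb with h1 | h1 | h1
  · exact e.hT y (h1 ▸ h.hS.hy.vb) h.yJ'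
  · exact h.gP j1 (h1 ▸ e.hj)
  · exact h.gP k1 (h1 ▸ e.hk)

theorem gan (h : NC H J T x y z o a b p g be ga de D) :
    ∀ u ∈ H.pt ga, ¬ H.Hv ((J \ {b}) ∪ {y}) u := by
  intro u hu hH
  rcases h.gaall u hu with rfl | rfl | rfl
  · obtain ⟨⟨T1, b1, c1, j1, k1, e⟩, -⟩ := hH
    exact h.znX _ _ _ _ _ e
  · exact h.hS.bega (hH.2 b h.bJ' h.ob.symm be ga h.hS.obe h.hS.oga h.hS.hy.hk.1 h.hS.hz.hk.1)
  · exact h.hS.bega (hH.2 o h.oJ' h.ob be ga h.hS.hy.hk.1 h.hS.hz.hk.1 h.hS.obe h.hS.oga)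

theorem oall (h : NC H J T x y z o a b p g be ga de D) {r : B} (hr : o ∈ H.pt r) :
    r = be ∨ r = ga ∨ r = de :=
  bl_cases h.hS.obe h.hS.oga h.hS.ode h.hS.bega h.hS.debe.symm h.hS.dega.symm hr

theorem Dde (h : NC H J T x y z o a b p g be ga de D) : D ≠ de := by
  rintro rfl
  rcases pt_cases h.hS.ode h.hS.xde h.hlf.hD.2.1 h.ox h.ob h.xb h.hlf.hD.2.2.1 with e | e | e
  · exact h.op e.symm
  · exact h.xp e.symm
  · exact h.bp e.symm

theorem bde (h : NC H J T x y z o a b p g be ga de D) : b ∉ H.pt de := by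
  intro hb
  rcases h.hlf.all hb with e | e | e
  · exact h.hS.debe e
  · exact h.Dde e.symm
  · exact h.hS.dega e

/-- the third point of `de` is the neighbour of `b` -/
theorem pde (hE : ST_End) (h : NC H J T x y z o a b p g be ga de D) : p ∈ H.pt de := by
  obtain ⟨w, how, hxw, hw, hwall⟩ := ex_pt2 h.hS.ode h.hS.xde h.ox
  have hwJ : w ∈ J := by
    by_contra hwJ
    refine h.hS.hde fun u hu huJ => ?_
    rcases hwall u hu with rfl | rfl | rfl
    · exact h.oJ huJ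
    · exact h.xJ huJ
    · exact hwJ huJ
  have hwb : w ≠ b := fun e => h.bde (e ▸ hw)
  have hP : H.P ((J \ {b}) ∪ {y}) de w := by
    refine ⟨hw, (mJ' w).2 (Or.inl ⟨hwJ, hwb⟩), fun u hu huJ => ?_⟩
    rcases hwall u hu with rfl | rfl | rfl
    · exact absurd huJ h.oJ'
    · exact absurd huJ h.xJ'
    · rfl
  have hXo : XD H ((J \ {b}) ∪ {y}) o ga be de y w :=
    ⟨h.hS.oga, h.hS.obe, h.hS.ode, h.hS.debe.symm, h.hX'.hT, h.hX'.hj, hP⟩
  have := hE A B H _ b o y p w ga be D ga be de h.hO' h.hX' hXo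
  exact this ▸ hw

/-- `x` is not on the pair block of `b` -/
theorem xD (hE : ST_End) (h : NC H J T x y z o a b p g be ga de D) {D' : B} {q : A}
    (hDD' : D ≠ D') (hQ' : H.Q J D' p q) (hqb : q ≠ b) : x ∉ H.pt D := by
  intro hxD
  have hpde := h.pde hE
  obtain ⟨⟨s, hs⟩, hI⟩ := h.hO.1
  have hdeall : ∀ r ∈ H.pt de, r = o ∨ r = x ∨ r = p := fun r hr =>
    pt_cases h.hS.ode h.hS.xde hpde h.ox h.op h.xp hr
  have hDall : ∀ r ∈ H.pt D, r = b ∨ r = p ∨ r = x := fun r hr =>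
    pt_cases h.hlf.hD.2.1 h.hlf.hD.2.2.1 hxD h.bp h.xb.symm h.xp.symm hr
  have hdeD' : de ≠ D' := by
    rintro rfl
    rcases hdeall q hQ'.2.2.1 with e | e | e
    · exact h.oJ (e ▸ hQ'.2.2.2.2.1)
    · exact h.xJ (e ▸ hQ'.2.2.2.2.1)
    · exact hQ'.1 e.symm
  have hpall : ∀ r, p ∈ H.pt r → r = D ∨ r = D' ∨ r = de := fun r hr =>
    bl_cases h.hlf.hD.2.2.1 hQ'.2.1 hpde hDD' h.Dde hdeD'.symm hr
  have hball : ∀ r, b ∈ H.pt r → r = be ∨ r = D ∨ r = ga := fun r hr => h.hlf.all hr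
  have hTD : T ≠ D := by
    rintro rfl
    exact h.hS.hy.hT b h.hlf.hD.2.1 h.bJ
  have hTde : T ≠ de := by
    rintro rfl
    exact h.hS.hy.hT p hpde h.pJ
  have hxall : ∀ r, x ∈ H.pt r → r = T ∨ r = D ∨ r = de := fun r hr =>
    bl_cases h.hS.hx hxD h.hS.xde hTD hTde h.Dde hr
  have hoall : ∀ r, o ∈ H.pt r → r = be ∨ r = ga ∨ r = de := fun r hr => h.oall hr
  have hTall := h.Tall
  have hbeall := h.beall
  have hgaall := h.gaall
  have hntb : H.nt J b := h.hlf.hD.nt hI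
  have hntp : H.nt J p := hQ'.nt hI
  have g1 := h.yJ
  have g2 := h.zJ
  have g3 := h.xJ
  have g4 := h.oJ
  have g5 := h.bJ
  have g6 := h.pJ
  have g7 := h.ox
  have g8 := h.oy
  have g9 := h.oz
  have g10 := h.hS.xy
  have g11 := h.hS.xz
  have g12 := h.bp
  have g13 : q ∈ J := hQ'.2.2.2.2.1
  have g14 : p ≠ q := hQ'.1
  have g15 : q ∈ H.pt D' := hQ'.2.2.1
  have g16 := h.hS.ode
  have g17 := h.hS.obe
  have g18 := h.hS.oga
  have g19 := h.hS.xde
  have g20 := h.hS.hy.hT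
  have g21 := h.hS.hx
  have hEx : Ex H J {o, x} {b, p} ∅ {T}
      (fun u => if u = o then true else if u = x then false else s u) := by
    refine ⟨by grind, by grind, ?_, ?_, ?_, ?_⟩
    · clear hE hQ' hs hI h hntb hntp g20
      grind
    · exact hc_s hs (by grind) (by grind) (by grind)
    · clear hE hQ' hs hI h hntb hntp g20
      grind
    · intro r hr
      rw [Finset.mem_singleton] at hr; subst hr
      exact ⟨g20, x, g21, by simp⟩
  refine hEx.contra h.hO ?_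
  have e1 : ({o, x} : Finset A).card ≤ 2 := Finset.card_le_two
  have e2 : ({b, p} : Finset A).card = 2 := Finset.card_pair h.bp
  simp only [e2, Finset.card_empty, Finset.card_singleton]
  omega

/-- the new token is not a long K4 token -/
theorem partA (hE : ST_End) (h : NC H J T x y z o a b p g be ga de D) {D' : B} {q : A}
    (hDD' : D ≠ D') (hQ' : H.Q J D' p q) (hqb : q ≠ b) {x1 y1 z1 o1 a1 b1 : A} {g1 be1 ga1 de1 : B}
    (hS1 : KS H ((J \ {b}) ∪ {y}) ga x1 y1 z1 o1 a1 b1 g1 be1 ga1 de1) : False := by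
  have hy1z : y1 ≠ z := by rintro rfl; exact h.znX _ _ _ _ _ hS1.hy
  have hz1z : z1 ≠ z := by rintro rfl; exact h.znX _ _ _ _ _ hS1.hz
  have ho1b : o1 ≠ b := fun e => hS1.oT (e ▸ h.hS.hz.hk.1)
  have ho1o : o1 ≠ o := fun e => hS1.oT (e ▸ h.hS.oga)
  have ho1J : o1 ∉ J := fun e => hS1.oJ ((mJ' o1).2 (Or.inl ⟨e, ho1b⟩))
  have hg1ga : ga ≠ g1 := hS1.hy.Tb
  have hbg1 : b ∈ H.pt g1 ∧ o ∈ H.pt g1 ∧ ((y1 = o ∧ z1 = b) ∨ (y1 = b ∧ z1 = o)) := by
    have e2 := h.gaall y1 hS1.hy.vT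
    have e3 := h.gaall z1 hS1.hz.vT
    have e6 := hS1.yz
    have e7 := hS1.hy.vb
    have e8 := hS1.hz.vb
    rcases e2 with e2 | e2 | e2
    · exact absurd e2 hy1z
    · rcases e3 with e3 | e3 | e3
      · exact absurd e3 hz1z
      · exact absurd (e2.trans e3.symm) e6
      · exact ⟨e3 ▸ e8, e2 ▸ e7, Or.inl ⟨e2, e3⟩⟩
    · rcases e3 with e3 | e3 | e3
      · exact absurd e3 hz1z
      · exact ⟨e2 ▸ e7, e3 ▸ e8, Or.inr ⟨e2, e3⟩⟩
      · exact absurd (e2.trans e3.symm) e6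
  obtain ⟨hb1, ho1, hyz⟩ := hbg1
  have hgbe : g1 = be := by
    rcases h.hlf.all hb1 with e | e | e
    · exact e
    · exfalso
      rcases h.oall ho1 with e' | e' | e'
      · exact h.hlf.bD (e'.symm.trans e)
      · exact hg1ga e'.symm
      · exact h.Dde (e.symm.trans e')
    · exact absurd e.symm hg1ga
  have hkey : o1 ∈ H.pt de ∧ o1 ∈ H.pt D := by
    have hbD : b ∈ H.pt D := h.hlf.hD.2.1
    rcases hyz with ⟨rfl, rfl⟩ | ⟨rfl, rfl⟩
    · constructor
      · rcases hS1.hy.all h.hS.ode with e | e | e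
        · exact absurd e h.hS.dega
        · exact absurd (e.trans hgbe) h.hS.debe
        · exact e ▸ hS1.obe
      · rcases hS1.hz.all hbD with e | e | e
        · exact absurd e.symm h.hlf.FD
        · exact absurd (e.trans hgbe).symm h.hlf.bD
        · exact e ▸ hS1.oga
    · constructor
      · rcases hS1.hz.all h.hS.ode with e | e | e
        · exact absurd e h.hS.dega
        · exact absurd (e.trans hgbe) h.hS.debe
        · exact e ▸ hS1.oga
      · rcases hS1.hy.all hbD with e | e | e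
        · exact absurd e.symm h.hlf.FD
        · exact absurd (e.trans hgbe).symm h.hlf.bD
        · exact e ▸ hS1.obe
  have hpde := h.pde hE
  have ho1x : o1 = x := by
    rcases pt_cases h.hS.ode h.hS.xde hpde h.ox h.op h.xp hkey.1 with e | e | e
    · exact absurd e ho1o
    · exact e
    · exact absurd (e ▸ h.pJ) ho1J
  exact h.xD hE hDD' hQ' hqb (ho1x ▸ hkey.2)

/-- the other long K4 tokens were long K4 tokens before -/
theorem partB (hE : ST_End) (h : NC H J T x y z o a b p g be ga de D) {t : B} {x1 y1 z1 o1 : A}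
    (htga : t ≠ ga) (hK1 : H.K4d ((J \ {b}) ∪ {y}) t x1 y1 z1 o1)
    (hL1 : H.Lg ((J \ {b}) ∪ {y}) y1) : H.K4d J t x1 y1 z1 o1 ∧ H.Lg J y1 := by
  obtain ⟨a1, b1, g1, be1, ga1, de1, hS1⟩ := ks hE h.hO' hK1 hL1
  have hS1x : x1 ∉ (J \ {b}) ∪ {y} := hS1.hy.hT x1 hS1.hx
  have hS1de : de1 ≠ t := by rintro rfl; exact hS1.oT hS1.ode
  have hbt : b ∉ H.pt t := fun e => htga (F1 h.hO' e h.hS.hz.hk.1 hS1.hy.hT h.hX'.hT)
  have hUt : H.U J t := by
    intro u hu huJ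
    by_cases hub : u = b
    · exact hbt (hub ▸ hu)
    · exact hS1.hy.hT u hu ((mJ' u).2 (Or.inl ⟨huJ, hub⟩))
  have hzt : z ∉ H.pt t := fun e => htga (F1 h.hO' e h.hS.hz.vc hS1.hy.hT h.hX'.hT)
  have ho1b : o1 ≠ b := by
    rintro rfl
    rcases bl_cases hS1.obe hS1.oga hS1.ode hS1.bega hS1.debe.symm hS1.dega.symm h.hS.hz.hk.1
      with e | e | e
    · exact h.hX'.hT.not_P (e ▸ hS1.hy.hk)
    · exact h.hX'.hT.not_P (e ▸ hS1.hz.hk)
    · exact hS1.hde (e ▸ h.hX'.hT)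
  have ho1J : o1 ∉ J := fun e => hS1.oJ ((mJ' o1).2 (Or.inl ⟨e, ho1b⟩))
  have ho1y : o1 ≠ y := fun e => hS1.oJ (e ▸ h.yJ')
  have hy1z1 := hS1.yz
  have hy1b : y1 ≠ b := fun e => hbt (e ▸ hS1.hy.vT)
  have hz1b : z1 ≠ b := fun e => hbt (e ▸ hS1.hz.vT)
  have hy1z : y1 ≠ z := fun e => hzt (e ▸ hS1.hy.vT)
  have hz1z : z1 ≠ z := fun e => hzt (e ▸ hS1.hz.vT)
  have hy1y : y1 ≠ y := fun e => hS1.hy.nJ (e ▸ h.yJ')
  have hz1y : z1 ≠ y := fun e => hS1.hz.nJ (e ▸ h.yJ')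
  have ha1 : a1 ≠ y := by
    rintro rfl
    rcases h.hS.hy.all hS1.hy.hj.1 with e | e | e
    · have e2 := h.Tall y1 (e ▸ hS1.hy.vb)
      have e3 := h.Tall z1 (e ▸ hS1.hz.vb)
      have h1 : y1 = x := by tauto
      have h2 : z1 = x := by tauto
      exact hy1z1 (h1.trans h2.symm)
    · exact h.gP a1 (e ▸ hS1.hy.hj)
    · have e2 := h.beall y1 (e ▸ hS1.hy.vb)
      have e3 := h.beall z1 (e ▸ hS1.hz.vb)
      have h1 : y1 = o := by tauto
      have h2 : z1 = o := by tauto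
      exact hy1z1 (h1.trans h2.symm)
  have hb1 : b1 ≠ y := by
    rintro rfl
    have h1 : be1 = T ∨ be1 = be := by
      rcases h.hS.hy.all hS1.hy.hk.1 with e | e | e
      · exact Or.inl e
      · exact absurd (e ▸ hS1.hy.hk) (h.gP b1)
      · exact Or.inr e
    have h2 : ga1 = T ∨ ga1 = be := by
      rcases h.hS.hy.all hS1.hz.hk.1 with e | e | e
      · exact Or.inl e
      · exact absurd (e ▸ hS1.hz.hk) (h.gP b1)
      · exact Or.inr e
    have hne := hS1.bega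
    have h3 : o1 ∈ H.pt T ∧ o1 ∈ H.pt be := by
      rcases h1 with h1 | h1 <;> rcases h2 with h2 | h2
      · exact absurd (h1.trans h2.symm) hne
      · exact ⟨h1 ▸ hS1.obe, h2 ▸ hS1.oga⟩
      · exact ⟨h2 ▸ hS1.oga, h1 ▸ hS1.obe⟩
      · exact absurd (h1.trans h2.symm) hne
    rcases h.beall o1 h3.2 with e | e | e
    · exact ho1y e
    · exact h.hS.oT (e ▸ h3.1)
    · exact ho1b e
  have hbJn : ∀ u, u ∈ (J \ {b}) ∪ {y} → u ≠ b := fun u hu e => h.bJ' (e ▸ hu)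
  have ha1b : a1 ≠ b := hbJn a1 hS1.hy.hj.2.1
  have hb1b : b1 ≠ b := hbJn b1 hS1.hy.hk.2.1
  have hg1 : ∀ r ∈ H.pt g1, r = y1 ∨ r = z1 ∨ r = a1 := fun r hr =>
    pt_cases hS1.hy.vb hS1.hz.vb hS1.hy.hj.1 hS1.yz
      (fun e => hS1.hy.nJ (e ▸ hS1.hy.hj.2.1)) (fun e => hS1.hz.nJ (e ▸ hS1.hy.hj.2.1)) hr
  have ho1y1 : y1 ≠ o1 := fun e => hS1.oT (e ▸ hS1.hy.vT)
  have hbe1 : ∀ r ∈ H.pt be1, r = y1 ∨ r = o1 ∨ r = b1 := fun r hr =>
    pt_cases hS1.hy.vc hS1.obe hS1.hy.hk.1 ho1y1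
      (fun e => hS1.hy.nJ (e ▸ hS1.hy.hk.2.1)) (fun e => hS1.oJ (e ▸ hS1.hy.hk.2.1)) hr
  have hPg1 : H.P J g1 a1 := by
    refine ⟨hS1.hy.hj.1, ?_, fun u hu huJ => ?_⟩
    · rcases (mJ' a1).1 hS1.hy.hj.2.1 with e | e
      · exact e.1
      · exact absurd e ha1
    · by_cases hub : u = b
      · rcases hg1 u hu with e | e | e
        · exact absurd (e.symm.trans hub) hy1b
        · exact absurd (e.symm.trans hub) hz1b
        · exact e
      · exact hS1.hy.hj.2.2 u hu ((mJ' u).2 (Or.inl ⟨huJ, hub⟩))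
  have hPbe1 : H.P J be1 b1 := by
    refine ⟨hS1.hy.hk.1, ?_, fun u hu huJ => ?_⟩
    · rcases (mJ' b1).1 hS1.hy.hk.2.1 with e | e
      · exact e.1
      · exact absurd e hb1
    · by_cases hub : u = b
      · rcases hbe1 u hu with e | e | e
        · exact absurd (e.symm.trans hub) hy1b
        · exact absurd (e.symm.trans hub) ho1b
        · exact e
      · exact hS1.hy.hk.2.2 u hu ((mJ' u).2 (Or.inl ⟨huJ, hub⟩))
  obtain ⟨⟨-, k1, k2, k3, k4, k5, k6, -, k7⟩, k8⟩ := hK1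
  exact ⟨⟨⟨hUt, k1, k2, k3, k4, k5, k6, ho1J, k7⟩, k8⟩,
    t, g1, be1, a1, b1, ⟨hS1.hy.vT, hS1.hy.vb, hS1.hy.vc, hS1.hy.bc, hUt, hPg1, hPbe1⟩, hS1.hl⟩

end NC

theorem st_N (hM : ST_M) (hE : ST_End) (hR1 : ST_Rot1) (hR2 : ST_Rot2) : ST_N := by
  intro A B _ _ H J T x y z o hG hK hLg
  obtain ⟨hO, hB0, hmin⟩ := hG
  obtain ⟨a, b, g, be, ga, de, hS⟩ := ks hE hO hK hLg
  obtain ⟨D, F, p, hlf⟩ := hS.hy.symm.lf hO
  have hF : ga = F := by
    rcases hlf.all hS.hz.hk.1 with e | e | e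
    · exact absurd e.symm hS.bega
    · exfalso
      subst e
      exact hlf.hD.1 (hS.hz.hk.2.2 p hlf.hD.2.2.1 hlf.hD.2.2.2.2.1).symm
    · exact e
  subst hF
  have hLba : H.LP b a := fun D e => hS.hl D ⟨e.2, e.1⟩
  obtain ⟨hO', hX'⟩ := hR1 A B H J y b a p T be g D ga hO hS.hy.symm hlf
  obtain ⟨D', G, q, hDD', hQ', hPG, hqb, hqa, hpa, -, -⟩ :=
    hR2 A B H J y b a p T be g D ga hO hS.hy.symm hlf hLba
  have h : NC H J T x y z o a b p g be ga de D := ⟨hO, hO', hS, hlf, hX'⟩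
  have hM' := hM A B H J y b b a y p T be g ga be D hO hO' hlf.hb.2.1 hS.hy.symm hX'
  -- no bad tokens in J'
  have hB0' : H.nB ((J \ {b}) ∪ {y}) = 0 := by
    unfold nB at hB0 ⊢
    rw [Finset.card_eq_zero, Finset.filter_eq_empty_iff] at hB0 ⊢
    rintro t - ⟨hUt, u, v, hu, hv, huv, hHu, hHv, hLu⟩
    have htga : t ≠ ga := by rintro rfl; exact h.gan u hu hHu
    obtain ⟨h1, h2, h3, h4⟩ := hM' u t hHu hu hUt htga
    obtain ⟨h1', h2', h3', h4'⟩ := hM' v t hHv hv hUt htga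
    exact hB0 (Finset.mem_univ t) ⟨h1, u, v, hu, hv, huv, h3, h3', h4 hLu⟩
  have hnH : H.nH ((J \ {b}) ∪ {y}) ≤ H.nH J := by
    unfold nH
    apply Finset.card_le_card
    intro u hu
    simp only [Finset.mem_filter, Finset.mem_univ, true_and] at hu ⊢
    obtain ⟨T1, b1, c1, j1, k1, e⟩ := hu.1
    have hne : T1 ≠ ga := by rintro rfl; exact h.gan u e.vT hu
    exact (hM' u T1 hu e.vT e.hT hne).2.2.1
  have hnN : H.nN ((J \ {b}) ∪ {y}) < H.nN J := by
    unfold nN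
    apply Finset.card_lt_card
    refine ⟨?_, fun hs => ?_⟩
    · intro t ht
      simp only [Finset.mem_filter, Finset.mem_univ, true_and] at ht ⊢
      obtain ⟨x1, y1, z1, o1, hK1, hL1⟩ := ht
      have htga : t ≠ ga := by
        rintro rfl
        obtain ⟨a1, b1, g1, be1, ga1, de1, hS1⟩ := ks hE hO' hK1 hL1
        exact h.partA hE hDD' hQ' hqb hS1
      exact ⟨x1, y1, z1, o1, h.partB hE htga hK1 hL1⟩
    · have := hs (Finset.mem_filter.2 ⟨Finset.mem_univ T, x, y, z, o, hK, hLg⟩)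
      obtain ⟨-, x1, y1, z1, o1, hK1, -⟩ := Finset.mem_filter.1 this
      exact hK1.1.1 y hS.hy.vT h.yJ'
  rcases hmin _ hO' hB0' with e | ⟨e1, e2⟩
  · omega
  · omega

end Pool.Agent.Helper64.Inj
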