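import Mathlib
import Pool.Agent.Helper65.Inj.JDefs

namespace Pool.Agent.Helper64.Inj

open Classical
open Pool.Agent.Helper65.Inj
open Pool.Agent.Helper65.Inj.Cub

set_option linter.unusedSectionVars false
set_option linter.unusedVariables false

variable {A B : Type} [Fintype A] [Fintype B]

/-- the local structure of a token whose points `y, z` have a double block and a common
outer neighbour -/
structure DS2 (H : Cub A B) (J : Finset A) (T : B) (x y z o a b : A) (g be ga : B) : Prop where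
  hy : XD H J y T g be a b
  hz : XD H J z T g ga a b
  hx : x ∈ H.pt T
  xy : x ≠ y
  xz : x ≠ z
  yz : y ≠ z
  oJ : o ∉ J
  oT : o ∉ H.pt T
  obe : o ∈ H.pt be
  oga : o ∈ H.pt ga
  bega : be ≠ ga

theorem ds2 (hE : ST_End) {H : Cub A B} {J : Finset A} {T : B} {x y z o : A} (hO : H.Opt J)
    (hK : H.DD J T x y z o) :
    ∃ a b g be ga, DS2 H J T x y z o a b g be ga := by
  obtain ⟨hU, hxT, hyT, hzT, hxy, hxz, hyz, hoJ, hoT, ⟨g, hgT, hyg, hzg⟩, ⟨be, hybe, hobe⟩,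
    ⟨ga, hzga, hoga⟩⟩ := hK
  have hyJ : y ∉ J := hU y hyT
  have hzJ : z ∉ J := hU z hzT
  have hoy : o ≠ y := fun h => hoT (h ▸ hyT)
  have hoz : o ≠ z := fun h => hoT (h ▸ hzT)
  have hbeT : be ≠ T := fun h => hoT (h ▸ hobe)
  have hgaT : ga ≠ T := fun h => hoT (h ▸ hoga)
  obtain ⟨a, hya, hza, ha, hgall⟩ := ex_pt2 hyg hzg hyz
  have haJ : a ∈ J := by
    by_contra haJ
    have hUg : H.U J g := by
      intro u hu huJ
      rcases hgall u hu with rfl | rfl | rfl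
      · exact hyJ huJ
      · exact hzJ huJ
      · exact haJ huJ
    exact hgT (F1 hO hyg hyT hUg hU)
  have hoa : o ≠ a := fun h => hoJ (h ▸ haJ)
  have hog : o ∉ H.pt g := by
    intro h
    rcases hgall o h with h | h | h
    · exact hoy h
    · exact hoz h
    · exact hoa h
  have hbeg : be ≠ g := fun h => hog (h ▸ hobe)
  have hgag : ga ≠ g := fun h => hog (h ▸ hoga)
  have hPg : H.P J g a := by
    refine ⟨ha, haJ, fun u hu huJ => ?_⟩
    rcases hgall u hu with rfl | rfl | rfl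
    · exact absurd huJ hyJ
    · exact absurd huJ hzJ
    · rfl
  have key : ∀ y be, y ∈ H.pt be → y ∈ H.pt T → y ∉ J → y ≠ o → be ≠ T → o ∈ H.pt be →
      ∃ b, H.P J be b ∧ ∀ r ∈ H.pt be, r = y ∨ r = o ∨ r = b := by
    intro y be hybe hyT hyJ hyo hbeT hobe
    obtain ⟨w, hyw, how, hw, hwall⟩ := ex_pt2 hybe hobe hyo
    have hwJ : w ∈ J := by
      by_contra hwJ
      have hUbe : H.U J be := by
        intro u hu huJ
        rcases hwall u hu with rfl | rfl | rfl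
        · exact hyJ huJ
        · exact hoJ huJ
        · exact hwJ huJ
      exact hbeT (F1 hO hybe hyT hUbe hU)
    refine ⟨w, ⟨hw, hwJ, fun u hu huJ => ?_⟩, hwall⟩
    rcases hwall u hu with rfl | rfl | rfl
    · exact absurd huJ hyJ
    · exact absurd huJ hoJ
    · rfl
  obtain ⟨b, hPb, hball⟩ := key y be hybe hyT hyJ hoy.symm hbeT hobe
  obtain ⟨b', hPb', hball'⟩ := key z ga hzga hzT hzJ hoz.symm hgaT hoga
  have hX : XD H J y T g be a b := ⟨hyT, hyg, hybe, hbeg.symm, hU, hPg, hPb⟩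
  have hZ : XD H J z T g ga a b' := ⟨hzT, hzg, hzga, hgag.symm, hU, hPg, hPb'⟩
  have hbb : b = b' := hE A B H J y z a b b' T g be T g ga hO hX hZ
  subst hbb
  refine ⟨a, b, g, be, ga, hX, hZ, hxT, hxy, hxz, hyz, hoJ, hoT, hobe, hoga, ?_⟩
  rintro rfl
  rcases hball z hzga with h | h | h
  · exact hyz h.symm
  · exact hoz h.symm
  · exact hzJ (h ▸ hPb.2.1)

theorem st_P2 (hM : ST_M) (hE : ST_End) (hR1 : ST_Rot1) : ST_P2 := by
  intro A B _ _ H J T x y z o hG hK hx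
  obtain ⟨hO, hB0, hmin⟩ := hG
  obtain ⟨a, b, g, be, ga, hS⟩ := ds2 hE hO hK
  obtain ⟨D, F, p, hlf⟩ := hS.hy.symm.lf hO
  have hF : ga = F := by
    rcases hlf.all hS.hz.hk.1 with e | e | e
    · exact absurd e.symm hS.bega
    · exfalso
      subst e
      exact hlf.hD.1 (hS.hz.hk.2.2 p hlf.hD.2.2.1 hlf.hD.2.2.2.2.1).symm
    · exact e
  subst hF
  obtain ⟨hO', hX'⟩ := hR1 A B H J y b a p T be g D ga hO hS.hy.symm hlf
  have hyJ : y ∉ J := hS.hy.nJ
  have hoJ : o ∉ J := hS.oJ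
  have hzJ : z ∉ J := hS.hz.nJ
  have hbJ : b ∈ J := hlf.hb.2.1
  have haJ : a ∈ J := hS.hy.hj.2.1
  have hab : a ≠ b := hS.hy.ne hO
  have hoy : o ≠ y := fun h => hS.oT (h ▸ hS.hy.vT)
  have hoz : o ≠ z := fun h => hS.oT (h ▸ hS.hz.vT)
  have hob : o ≠ b := fun h => hoJ (h ▸ hbJ)
  have hyb : y ≠ b := fun h => hyJ (h ▸ hbJ)
  have hzb : z ≠ b := fun h => hzJ (h ▸ hbJ)
  have hya : y ≠ a := fun h => hyJ (h ▸ haJ)
  have mJ' : ∀ u, u ∈ (J \ {b}) ∪ {y} ↔ (u ∈ J ∧ u ≠ b) ∨ u = y := by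
    intro u; simp only [Finset.mem_union, Finset.mem_sdiff, Finset.mem_singleton]
  have hyJ' : y ∈ (J \ {b}) ∪ {y} := (mJ' y).2 (Or.inr rfl)
  have hbJ' : b ∉ (J \ {b}) ∪ {y} := by rw [mJ']; tauto
  have hoJ' : o ∉ (J \ {b}) ∪ {y} := by rw [mJ']; tauto
  have haJ' : a ∈ (J \ {b}) ∪ {y} := (mJ' a).2 (Or.inl ⟨haJ, hab⟩)
  have hgaall : ∀ r ∈ H.pt ga, r = z ∨ r = o ∨ r = b := fun r hr =>
    pt_cases hS.hz.vc hS.oga hS.hz.hk.1 hoz.symm hzb hob hr
  have hgP : ∀ r, ¬ H.P ((J \ {b}) ∪ {y}) g r := by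
    intro r h
    have h1 := h.2.2 y hS.hy.vb hyJ'
    have h2 := h.2.2 a hS.hy.hj.1 haJ'
    exact hya (h1.trans h2.symm)
  have hgan : ∀ u ∈ H.pt ga, ¬ H.Hv ((J \ {b}) ∪ {y}) u := by
    intro u hu hH
    rcases hgaall u hu with rfl | rfl | rfl
    · obtain ⟨⟨T1, b1, c1, j1, k1, h⟩, -⟩ := hH
      rcases h.all hS.hz.vb with h1 | h1 | h1
      · exact h.hT y (h1 ▸ hS.hy.vb) hyJ'
      · exact hgP j1 (h1 ▸ h.hj)
      · exact hgP k1 (h1 ▸ h.hk)
    · exact hS.bega (hH.2 b hbJ' hob.symm be ga hS.obe hS.oga hS.hy.hk.1 hS.hz.hk.1)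
    · exact hS.bega (hH.2 o hoJ' hob be ga hS.hy.hk.1 hS.hz.hk.1 hS.obe hS.oga)
  have hM' := hM A B H J y b b a y p T be g ga be D hO hO' hbJ hS.hy.symm hX'
  have hB0' : H.nB ((J \ {b}) ∪ {y}) = 0 := by
    unfold nB at hB0 ⊢
    rw [Finset.card_eq_zero, Finset.filter_eq_empty_iff] at hB0 ⊢
    rintro t - ⟨hUt, u, v, hu, hv, huv, hHu, hHv, hLu⟩
    have htga : t ≠ ga := by rintro rfl; exact hgan u hu hHu
    obtain ⟨h1, h2, h3, h4⟩ := hM' u t hHu hu hUt htga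
    obtain ⟨h1', h2', h3', h4'⟩ := hM' v t hHv hv hUt htga
    exact hB0 (Finset.mem_univ t) ⟨h1, u, v, hu, hv, huv, h3, h3', h4 hLu⟩
  have hnH : H.nH ((J \ {b}) ∪ {y}) < H.nH J := by
    unfold nH
    apply Finset.card_lt_card
    refine ⟨?_, fun hs => ?_⟩
    · intro u hu
      simp only [Finset.mem_filter, Finset.mem_univ, true_and] at hu ⊢
      obtain ⟨T1, b1, c1, j1, k1, e⟩ := hu.1
      have hne : T1 ≠ ga := by rintro rfl; exact hgan u e.vT hu
      exact (hM' u T1 hu e.vT e.hT hne).2.2.1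
    · have := hs (Finset.mem_filter.2 ⟨Finset.mem_univ x, hx⟩)
      have hx' : H.Hv ((J \ {b}) ∪ {y}) x := (Finset.mem_filter.1 this).2
      obtain ⟨T1, b1, c1, j1, k1, e⟩ := hx'.1
      have hne : T1 ≠ ga := by rintro rfl; exact hgan x e.vT hx'
      obtain ⟨h1, h2, -, -⟩ := hM' x T1 hx' e.vT e.hT hne
      exact h2 (F1 hO e.vT hS.hx h1 hS.hy.hT)
  rcases hmin _ hO' hB0' with e | ⟨e1, e2⟩
  · omega
  · omega

theorem st_h3 (hE : ST_End) (hU1s : ST_U1s) : ST_h3 := by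
  intro A B _ _ H J T g be ga y z y' z' hO hU hyT hzT hyz hgT hyg hzg hy'J hz'J hy'T hz'T hybe hy'be
    hzga hz'ga hH
  have hyJ : y ∉ J := hU y hyT
  have hzJ : z ∉ J := hU z hzT
  have hy'y : y' ≠ y := fun h => hy'T (h ▸ hyT)
  have hy'z : y' ≠ z := fun h => hy'T (h ▸ hzT)
  have hz'y : z' ≠ y := fun h => hz'T (h ▸ hyT)
  have hz'z : z' ≠ z := fun h => hz'T (h ▸ hzT)
  have hbeT : be ≠ T := fun h => hy'T (h ▸ hy'be)
  have hgaT : ga ≠ T := fun h => hz'T (h ▸ hz'ga)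
  obtain ⟨a, hya, hza, ha, hgall⟩ := ex_pt2 hyg hzg hyz
  have haJ : a ∈ J := by
    by_contra haJ
    have hUg : H.U J g := by
      intro u hu huJ
      rcases hgall u hu with rfl | rfl | rfl
      · exact hyJ huJ
      · exact hzJ huJ
      · exact haJ huJ
    exact hgT (F1 hO hyg hyT hUg hU)
  have hy'g : y' ∉ H.pt g := by
    intro h
    rcases hgall y' h with h | h | h
    · exact hy'y h
    · exact hy'z h
    · exact hy'J (h ▸ haJ)
  have hz'g : z' ∉ H.pt g := by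
    intro h
    rcases hgall z' h with h | h | h
    · exact hz'y h
    · exact hz'z h
    · exact hz'J (h ▸ haJ)
  have hbeg : be ≠ g := fun h => hy'g (h ▸ hy'be)
  have hgag : ga ≠ g := fun h => hz'g (h ▸ hz'ga)
  have hPg : H.P J g a := by
    refine ⟨ha, haJ, fun u hu huJ => ?_⟩
    rcases hgall u hu with rfl | rfl | rfl
    · exact absurd huJ hyJ
    · exact absurd huJ hzJ
    · rfl
  have key : ∀ y o be, y ∈ H.pt be → y ∈ H.pt T → y ∉ J → o ∉ J → y ≠ o → be ≠ T → o ∈ H.pt be →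
      ∃ b, H.P J be b ∧ ∀ r ∈ H.pt be, r = y ∨ r = o ∨ r = b := by
    intro y o be hybe hyT hyJ hoJ hyo hbeT hobe
    obtain ⟨w, hyw, how, hw, hwall⟩ := ex_pt2 hybe hobe hyo
    have hwJ : w ∈ J := by
      by_contra hwJ
      have hUbe : H.U J be := by
        intro u hu huJ
        rcases hwall u hu with rfl | rfl | rfl
        · exact hyJ huJ
        · exact hoJ huJ
        · exact hwJ huJ
      exact hbeT (F1 hO hybe hyT hUbe hU)
    refine ⟨w, ⟨hw, hwJ, fun u hu huJ => ?_⟩, hwall⟩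
    rcases hwall u hu with rfl | rfl | rfl
    · exact absurd huJ hyJ
    · exact absurd huJ hoJ
    · rfl
  obtain ⟨b, hPb, hball⟩ := key y y' be hybe hyT hyJ hy'J hy'y.symm hbeT hy'be
  obtain ⟨b', hPb', hball'⟩ := key z z' ga hzga hzT hzJ hz'J hz'z.symm hgaT hz'ga
  have hX : XD H J y T g be a b := ⟨hyT, hyg, hybe, hbeg.symm, hU, hPg, hPb⟩
  have hZ : XD H J z T g ga a b' := ⟨hzT, hzg, hzga, hgag.symm, hU, hPg, hPb'⟩
  have hbb : b = b' := hE A B H J y z a b b' T g be T g ga hO hX hZ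
  subst hbb
  have hab : a ≠ b := hX.ne hO
  have main : ∀ T1 b1 c1 j1 k1, XD H J y' T1 b1 c1 j1 k1 → be = b1 → False := by
    intro T1 b1 c1 j1 k1 h hb1
    subst hb1
    have hj1 : j1 = b := hPb.2.2 j1 h.hj.1 h.hj.2.1
    subst hj1
    have hk1 : a = k1 := hE A B H J y y' j1 a k1 T be g T1 be c1 hO hX.symm h
    subst hk1
    refine hU1s A B H J y' z j1 a T1 be c1 T ga g hO h hZ.symm ?_
    rintro r ⟨h1, h2⟩
    rcases hZ.all h2 with e | e | e
    · exact hy'T (e ▸ h1)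
    · exact hy'g (e ▸ h1)
    · subst e
      rcases h.all h1 with e | e | e
      · exact h.hT.not_P (e ▸ hPb')
      · subst e
        rcases hball z h2 with e | e | e
        · exact hyz e.symm
        · exact hy'z e.symm
        · exact hzJ (e ▸ hPb.2.1)
      · subst e
        exact hab (hPb'.2.2 a h.hk.1 h.hk.2.1)
  obtain ⟨⟨T1, b1, c1, j1, k1, h⟩, -⟩ := hH
  rcases h.all hy'be with e | e | e
  · exact h.hT.not_P (e ▸ hPb)
  · exact main _ _ _ _ _ h e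
  · exact main _ _ _ _ _ h.symm e

end Pool.Agent.Helper64.Inj
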